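import Mathlib
import Pool.Agent.H86.CMLib.H977R3.CM.Aut

/-!
# The fixed field of the automorphisms of `ℂ` which fix an algebraic number
-/

set_option autoImplicit false

open Polynomial

namespace Pool.Agent.W5h86.CC

theorem fixed_mem (t z : ℂ) (ht : IsAlgebraic ℚ t) (hz : IsAlgebraic ℚ z)
    (h : ∀ σ : ℂ ≃+* ℂ, σ t = t → σ z = z) : ∃ q : Polynomial ℚ, Polynomial.aeval t q = z := by
  classical
  let K := IntermediateField.adjoin ℚ ({t} : Set ℂ)
  have hzK : IsIntegral K z := hz.isIntegral.tower_top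
  have htK : t ∈ K := IntermediateField.subset_adjoin ℚ _ (Set.mem_singleton t)
  have hsep : (minpoly K z).Separable := (minpoly.irreducible hzK).separable
  have hspl : ((minpoly K z).map (algebraMap K ℂ)).Splits := IsAlgClosed.splits _
  let L := IntermediateField.adjoin K ((minpoly K z).rootSet ℂ)
  have hSF : (minpoly K z).IsSplittingField K L :=
    IntermediateField.adjoin_rootSet_isSplittingField hspl
  have hG : IsGalois K L := IsGalois.of_separable_splitting_field hsep
  have hfd : FiniteDimensional K L := Polynomial.IsSplittingField.finiteDimensional L (minpoly K z)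
  have hzL : z ∈ L := by
    apply IntermediateField.subset_adjoin
    rw [Polynomial.mem_rootSet]
    exact ⟨minpoly.ne_zero hzK, minpoly.aeval _ _⟩
  have hbot : (⟨z, hzL⟩ : L) ∈ (⊥ : IntermediateField K L) := by
    rw [IsGalois.mem_bot_iff_fixed]
    intro g
    obtain ⟨σ, hσ⟩ := Pool.Agent.H977R3.CM.exists_aut (algebraMap L ℂ) (g : L ≃+* L)
    have ht' : σ t = t := by
      have h1 := hσ (algebraMap K L ⟨t, htK⟩)
      have h2 : (g : L ≃+* L) (algebraMap K L ⟨t, htK⟩) = algebraMap K L ⟨t, htK⟩ := g.commutes _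
      rw [h2] at h1
      exact h1
    have h3 := h σ ht'
    have h4 := hσ ⟨z, hzL⟩
    apply Subtype.ext
    exact h4.symm.trans h3
  obtain ⟨k, hk⟩ := IntermediateField.mem_bot.1 hbot
  have hzk : (k : ℂ) = z := congrArg (algebraMap L ℂ) hk
  have hmem : z ∈ K := hzk ▸ k.2
  have h5 : z ∈ K.toSubalgebra := hmem
  rw [IntermediateField.adjoin_simple_toSubalgebra_of_isAlgebraic ht,
    Algebra.adjoin_singleton_eq_range_aeval] at h5
  obtain ⟨q, hq⟩ := h5
  exact ⟨q, hq⟩

end Pool.Agent.W5h86.CC
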