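import Mathlib
import Pool.Agent.H86.CMLib.H977R3.CM.Aut

/-!
# A quadratic subfield from a sign character (lemma (W) for helper86), written by helper74
-/

set_option autoImplicit false

namespace Pool.Agent.W5h86.CC

open Polynomial

namespace PW

/-- an irreducible polynomial divides every polynomial with a common root -/
theorem dvd_of_root {p g : ℚ[X]} (hp : Irreducible p) {t : ℂ} (ht : aeval t p = 0)
    (hg : aeval t g = 0) : p ∣ g := by
  by_contra hn
  obtain ⟨a, b, hab⟩ := (hp.coprime_iff_not_dvd).2 hn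
  have h := congrArg (aeval t) hab
  rw [map_add, map_mul, map_mul, ht, hg, mul_zero, mul_zero, add_zero, map_one] at h
  exact zero_ne_one h

theorem map_aev (σ : ℂ ≃+* ℂ) (z : ℂ) (q : ℚ[X]) : σ (aeval z q) = aeval (σ z) q := by
  have h : (σ : ℂ →+* ℂ).comp (algebraMap ℚ ℂ) = algebraMap ℚ ℂ := Subsingleton.elim _ _
  rw [aeval_def, aeval_def]
  have h2 := hom_eval₂ q (algebraMap ℚ ℂ) (σ : ℂ →+* ℂ) z
  rw [h] at h2
  exact h2

theorem exists_sigma {p : ℚ[X]} (hp : Irreducible p) {s t : ℂ} (ht : aeval t p = 0)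
    (hs : aeval s p = 0) : ∃ σ : ℂ ≃+* ℂ, σ t = s := by
  have hat : t ∈ algebraicClosure ℚ ℂ := mem_algebraicClosure_iff.2 ⟨p, hp.ne_zero, ht⟩
  have has : s ∈ algebraicClosure ℚ ℂ := mem_algebraicClosure_iff.2 ⟨p, hp.ne_zero, hs⟩
  let t' : algebraicClosure ℚ ℂ := ⟨t, hat⟩
  let s' : algebraicClosure ℚ ℂ := ⟨s, has⟩
  have hcl : IsAlgClosure ℚ (algebraicClosure ℚ ℂ) := algebraicClosure.isAlgClosure ℚ ℂ
  have hn : Normal ℚ (algebraicClosure ℚ ℂ) := IsAlgClosure.normal ℚ (algebraicClosure ℚ ℂ)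
  have ht' : aeval t' p = 0 := by
    apply Subtype.ext
    have := Polynomial.aeval_algebraMap_apply ℂ t' p
    rw [show algebraMap (algebraicClosure ℚ ℂ) ℂ t' = t from rfl, ht] at this
    exact this.symm
  have hs' : aeval s' p = 0 := by
    apply Subtype.ext
    have := Polynomial.aeval_algebraMap_apply ℂ s' p
    rw [show algebraMap (algebraicClosure ℚ ℂ) ℂ s' = s from rfl, hs] at this
    exact this.symm
  have hc : minpoly ℚ t' = minpoly ℚ s' := by
    rw [minpoly.eq_of_irreducible hp ht' |>.symm, minpoly.eq_of_irreducible hp hs' |>.symm]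
  obtain ⟨g, hg⟩ := (isConjRoot_iff_exists_algEquiv (K := ℚ) (x := s') (y := t')).1 hc.symm
  obtain ⟨σ, hσ⟩ := Pool.Agent.H977R3.CM.exists_aut (algebraMap (algebraicClosure ℚ ℂ) ℂ)
    g.toRingEquiv
  refine ⟨σ, ?_⟩
  have h := hσ t'
  have h2 : g.toRingEquiv t' = s' := hg
  rw [h2] at h
  exact h

/-- a nonzero weight on the roots is seen by a power sum -/
theorem exists_pow (R : Finset ℂ) (w : ℂ → ℤ) {t : ℂ} (ht : t ∈ R) (hwt : w t ≠ 0) :
    ∃ n : ℕ, ∑ z ∈ R, (w z : ℂ) * z ^ n ≠ 0 := by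
  classical
  by_contra hc
  push Not at hc
  have hall : ∀ f : ℂ[X], ∑ z ∈ R, (w z : ℂ) * f.eval z = 0 := by
    intro f
    induction f using Polynomial.induction_on' with
    | add f g hf hg => simp only [eval_add, mul_add, Finset.sum_add_distrib, hf, hg, add_zero]
    | monomial n a =>
      have : ∀ z : ℂ, (w z : ℂ) * (monomial n a).eval z = a * ((w z : ℂ) * z ^ n) := by
        intro z
        rw [eval_monomial]
        ring
      simp only [this]
      rw [← Finset.mul_sum, hc, mul_zero]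
  have h := hall (∏ y ∈ R.erase t, (X - C y))
  rw [Finset.sum_eq_single t] at h
  · rw [eval_prod] at h
    have h1 : (∏ y ∈ R.erase t, (X - C y : ℂ[X]).eval t) ≠ 0 := by
      refine Finset.prod_ne_zero_iff.2 fun y hy => ?_
      rw [eval_sub, eval_X, eval_C]
      exact sub_ne_zero.2 (Finset.ne_of_mem_erase hy).symm
    exact (mul_ne_zero (Int.cast_ne_zero.2 hwt) h1) h
  · intro z hz hzt
    rw [eval_prod, Finset.prod_eq_zero (Finset.mem_erase.2 ⟨hzt, hz⟩) (by simp), mul_zero]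
  · intro h'
    exact absurd ht h'

end PW

open PW in
theorem exists_quad (hF : ∀ t z : ℂ, IsAlgebraic ℚ t → IsAlgebraic ℚ z →
      (∀ σ : ℂ ≃+* ℂ, σ t = t → σ z = z) → ∃ q : Polynomial ℚ, Polynomial.aeval t q = z)
    (p : Polynomial ℚ) (hp : Irreducible p)
    (hneg : ∀ z : ℂ, Polynomial.aeval z p = 0 → Polynomial.aeval (-z) p = 0)
    (w : ℂ → ℤ) (hw : ∀ z, w (-z) = -w z) (t : ℂ) (ht : Polynomial.aeval t p = 0)
    (hwt : w t ≠ 0)
    (hσ : ∀ σ : ℂ ≃+* ℂ, (∀ z, Polynomial.aeval z p = 0 → w (σ z) = w z) ∨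
      (∀ z, Polynomial.aeval z p = 0 → w (σ z) = -w z)) :
    ∃ (q : Polynomial ℚ) (c : ℚ), q.comp (-Polynomial.X) = -q ∧
      p ∣ q ^ 2 - Polynomial.C c ∧ ¬ p ∣ q := by
  classical
  set R : Finset ℂ := (p.aroots ℂ).toFinset with hR
  have hmem : ∀ z, z ∈ R ↔ aeval z p = 0 := by
    intro z
    rw [hR, Multiset.mem_toFinset, mem_aroots]
    exact ⟨fun h => h.2, fun h => ⟨hp.ne_zero, h⟩⟩
  obtain ⟨n, hn⟩ := exists_pow R w ((hmem t).2 ht) hwt
  set δ : ℂ := ∑ z ∈ R, (w z : ℂ) * z ^ n with hδ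
  -- the action on `δ`
  have hact : ∀ (σ : ℂ ≃+* ℂ) (s : ℤ), s * s = 1 →
      (∀ z, aeval z p = 0 → w (σ z) = s * w z) → σ δ = s * δ := by
    intro σ s hs h
    rw [hδ, map_sum, Finset.mul_sum]
    refine Finset.sum_equiv σ.toEquiv ?_ ?_
    · intro z
      rw [hmem, hmem]
      change _ ↔ aeval (σ z) p = 0
      rw [← map_aev, map_eq_zero_iff σ σ.injective]
    · intro z hz
      change σ ((w z : ℂ) * z ^ n) = (s : ℂ) * ((w (σ z) : ℂ) * (σ z) ^ n)
      rw [h z ((hmem z).1 hz), map_mul, map_intCast, map_pow, Int.cast_mul]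
      have hs' : (s : ℂ) * s = 1 := by exact_mod_cast hs
      linear_combination (-(w z : ℂ) * (σ z) ^ n) * hs'
  have halg : IsAlgebraic ℚ δ := by
    rw [← mem_algebraicClosure_iff (F := ℚ) (E := ℂ)]
    refine sum_mem fun z hz => mul_mem (intCast_mem _ _) (pow_mem ?_ _)
    exact mem_algebraicClosure_iff.2 ⟨p, hp.ne_zero, (hmem z).1 hz⟩
  have hpm : ∀ σ : ℂ ≃+* ℂ, σ δ = δ ∨ σ δ = -δ := by
    intro σ
    rcases hσ σ with h | h
    · left
      have := hact σ 1 (by norm_num) (fun z hz => by rw [h z hz, one_mul])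
      rw [this]; push_cast; ring
    · right
      have := hact σ (-1) (by norm_num) (fun z hz => by rw [h z hz]; ring)
      rw [this]; push_cast; ring
  -- the square is rational
  obtain ⟨q1, hq1⟩ := hF 0 (δ ^ 2) isAlgebraic_zero (halg.pow 2) (fun σ _ => by
    rw [map_pow]
    rcases hpm σ with h | h <;> rw [h]
    ring)
  -- `δ` is a polynomial in `t`
  have halgt : IsAlgebraic ℚ t := ⟨p, hp.ne_zero, ht⟩
  obtain ⟨q0, hq0⟩ := hF t δ halgt halg (fun σ hσt => by
    rcases hσ σ with h | h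
    · have := hact σ 1 (by norm_num) (fun z hz => by rw [h z hz, one_mul])
      rw [this]; push_cast; ring
    · exfalso
      have := h t ht
      rw [hσt] at this
      exact hwt (by omega))
  -- an automorphism with `t ↦ -t`
  obtain ⟨σ, hσt⟩ := exists_sigma hp ht (hneg t ht)
  have hσδ : σ δ = -δ := by
    rcases hσ σ with h | h
    · exfalso
      have := h t ht
      rw [hσt, hw] at this
      exact hwt (by omega)
    · have := hact σ (-1) (by norm_num) (fun z hz => by rw [h z hz]; ring)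
      rw [this]; push_cast; ring
  have hq0n : aeval (-t) q0 = -δ := by
    rw [← hσt, ← map_aev, hq0, hσδ]
  have hcomp : aeval t (q0.comp (-X)) = -δ := by
    rw [aeval_comp, map_neg, aeval_X, hq0n]
  refine ⟨C (1 / 2) * (q0 - q0.comp (-X)), q1.coeff 0, ?_, ?_, ?_⟩
  · rw [mul_comp, C_comp, sub_comp, comp_assoc, neg_comp, X_comp, neg_neg, comp_X]
    ring
  · refine dvd_of_root hp ht ?_
    have h1 : aeval (0 : ℂ) q1 = (algebraMap ℚ ℂ) (q1.coeff 0) :=
      (coeff_zero_eq_aeval_zero' q1).symm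
    rw [map_sub, map_pow, map_mul, map_sub, hq0, hcomp, aeval_C, aeval_C, ← h1, hq1]
    simp only [one_div, map_inv₀, map_ofNat]
    ring
  · intro hd
    obtain ⟨g, hg⟩ := hd
    have h2 : aeval t (C (1 / 2 : ℚ) * (q0 - q0.comp (-X))) = 0 := by
      rw [hg, map_mul, ht, zero_mul]
    rw [map_mul, map_sub, hq0, hcomp, aeval_C] at h2
    simp only [one_div, map_inv₀, map_ofNat] at h2
    apply hn
    linear_combination h2

end Pool.Agent.W5h86.CC
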