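import Pool.Agent.H86.CMLib9.W5h86.LX.Fin4

set_option autoImplicit false
set_option linter.unusedSectionVars false
set_option linter.unusedSimpArgs false
set_option linter.unusedVariables false

/-!
# Abelian varieties with complex multiplication: separation of the embeddings by the Lie algebra of
# the de Rham-Betti group
-/

open Module Polynomial Function TensorProduct

noncomputable section

namespace Pool.Agent.W5h86.CC

open Pool.Agent.Y102 Pool.Agent.W516.DR Pool.Agent.W516.KC Pool.Agent.H204R3.SP Pool.Agent.W5h86.LY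
open Pool.Agent.W5h86.LX

section Dens

variable {V : Type} [AddCommGroup V] [Module ℚ V] [FiniteDimensional ℚ V]

/-- **Double commutant.** -/
theorem mem_adjoin_of_comm2 {S : Submodule ℚ (Module.End ℚ V)} (hS : Semi S)
    {T : Module.End ℚ V} (hT : ∀ P : Module.End ℚ V, (∀ X ∈ S, X * P = P * X) → T * P = P * T) :
    T ∈ Algebra.adjoin ℚ (S : Set (Module.End ℚ V)) := by
  set R := Algebra.adjoin ℚ (S : Set (Module.End ℚ V)) with hR
  have hsm : ∀ (r : R) (v : V), r • v = r.1 v := fun r v => rfl
  have hss : IsSemisimpleModule R V := by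
    rw [isSemisimpleModule_iff]
    refine ⟨fun N => ?_⟩
    let N' : Submodule ℚ V :=
      { carrier := N
        zero_mem' := N.zero_mem
        add_mem' := fun {a b} ha hb => N.add_mem ha hb
        smul_mem' := fun c v hv => by
          have h1 := N.smul_mem (algebraMap ℚ R c) hv
          have h2 : (algebraMap ℚ R c) • v = c • v := by
            rw [hsm]
            rfl
          rw [← h2]
          exact h1 }
    obtain ⟨U', hU', hc⟩ := hS N' fun X hX u hu => by
      have h1 := N.smul_mem (⟨X, Algebra.subset_adjoin hX⟩ : R) hu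
      exact h1
    have stab : ∀ r ∈ R, ∀ v ∈ U', r v ∈ U' := by
      intro r hr
      refine Algebra.adjoin_induction (p := fun r _ => ∀ v ∈ U', r v ∈ U') ?_ ?_ ?_ ?_ hr
      · intro X hX v hv
        exact hU' X hX v hv
      · intro c v hv
        exact U'.smul_mem c hv
      · intro a b _ _ ha hb v hv
        exact U'.add_mem (ha v hv) (hb v hv)
      · intro a b _ _ ha hb v hv
        exact ha _ (hb v hv)
    let M : Submodule R V :=
      { carrier := U'
        zero_mem' := U'.zero_mem
        add_mem' := fun {a b} ha hb => U'.add_mem ha hb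
        smul_mem' := fun r v hv => stab r.1 r.2 v hv }
    refine ⟨M, ?_⟩
    rw [isCompl_iff, disjoint_iff, codisjoint_iff, eq_bot_iff, eq_top_iff]
    constructor
    · rintro v ⟨hv, hv'⟩
      have h1 : v ∈ N' ⊓ U' := ⟨hv, hv'⟩
      rw [hc.inf_eq_bot, Submodule.mem_bot] at h1
      rw [h1]
      exact Submodule.zero_mem _
    · intro v _
      have h1 : v ∈ N' ⊔ U' := by rw [hc.sup_eq_top]; exact Submodule.mem_top
      obtain ⟨a, ha, b, hb, rfl⟩ := Submodule.mem_sup.1 h1
      exact Submodule.add_mem _ (Submodule.mem_sup_left ha) (Submodule.mem_sup_right hb)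
  let f : Module.End (Module.End R V) V :=
    { toFun := T
      map_add' := fun a b => map_add T a b
      map_smul' := fun g m => by
        let P : Module.End ℚ V :=
          { toFun := g
            map_add' := fun a b => map_add g a b
            map_smul' := fun c v => by
              have h1 := g.map_smul (algebraMap ℚ R c) v
              have h2 : ∀ w : V, (algebraMap ℚ R c) • w = c • w := fun w => by
                rw [hsm]
                rfl
              rw [h2, h2] at h1
              exact h1 }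
        have h1 := hT P fun X hX => by
          refine LinearMap.ext fun v => ?_
          have h2 := g.map_smul (⟨X, Algebra.subset_adjoin hX⟩ : R) v
          exact h2.symm
        exact LinearMap.congr_fun h1 m }
  obtain ⟨s, hs⟩ := Module.Finite.fg_top (R := ℚ) (M := V)
  obtain ⟨r, hr⟩ := jacobson_density f s
  have h1 : T = r.1 := by
    refine LinearMap.ext fun v => ?_
    have hv : v ∈ Submodule.span ℚ (s : Set V) := by rw [hs]; exact Submodule.mem_top
    induction hv using Submodule.span_induction with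
    | mem x hx => exact hr x hx
    | zero => rw [map_zero, map_zero]
    | add a b _ _ ha hb => rw [map_add, map_add, ha, hb]
    | smul c a _ ha => rw [map_smul, map_smul, ha]
  rw [h1]
  exact r.2

end Dens

variable {g : ℕ} (A : AbVar g)

/-- rank one: the commutant of `P` is `ℚ[P]` -/
theorem adjoin_of_comm {P : Module.End ℚ A.H1} (hP : P ∈ A.EA)
    (hsimple : ∀ Q ∈ A.EA, Q ≠ 0 → Function.Injective Q)
    (hdeg : (minpoly ℚ P).natDegree = 2 * g) {X : Module.End ℚ A.H1} (hX : X * P = P * X) :
    X ∈ Algebra.adjoin ℚ {P} := by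
  rcases subsingleton_or_nontrivial A.H1 with hsub | hnt
  · have h0 : X = 0 := LinearMap.ext fun v => Subsingleton.elim _ _
    rw [h0]
    exact Subalgebra.zero_mem _
  · obtain ⟨v, hv⟩ := exists_ne (0 : A.H1)
    have hkill : ∀ f : ℚ[X], aeval P f v = 0 → aeval P f = 0 := by
      intro f hf
      by_contra hne
      exact hv (hsimple _ (A.aeval_mem hP f) hne (by rw [hf, map_zero]))
    let T : degreeLT ℚ (2 * g) →ₗ[ℚ] A.H1 :=
      ((LinearMap.applyₗ v).comp (aeval P : ℚ[X] →ₐ[ℚ] Module.End ℚ A.H1).toLinearMap).domRestrict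
        (degreeLT ℚ (2 * g))
    have hTa : ∀ f : degreeLT ℚ (2 * g), T f = aeval P (f : ℚ[X]) v := fun f => rfl
    have hTi : Function.Injective T := by
      rw [injective_iff_map_eq_zero]
      intro f hf
      rw [hTa] at hf
      have h1 := hkill _ hf
      have h2 := minpoly.dvd ℚ P h1
      have h3 : (f : ℚ[X]) = 0 := by
        by_contra hne
        have h4 := natDegree_le_of_dvd h2 hne
        have h5 : (f : ℚ[X]).degree < (2 * g : ℕ) := mem_degreeLT.1 f.2
        have h6 := (natDegree_lt_iff_degree_lt hne).2 h5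
        omega
      exact Subtype.ext h3
    have hfr : finrank ℚ (degreeLT ℚ (2 * g)) = finrank ℚ A.H1 := by
      rw [(degreeLTEquiv ℚ (2 * g)).finrank_eq]
    have _ : FiniteDimensional ℚ (degreeLT ℚ (2 * g)) :=
      Module.Finite.equiv (degreeLTEquiv ℚ (2 * g)).symm
    have hTs : Function.Surjective T :=
      (LinearMap.injective_iff_surjective_of_finrank_eq_finrank hfr).1 hTi
    obtain ⟨f, hf⟩ := hTs (X v)
    rw [hTa] at hf
    have hcomm : ∀ q : ℚ[X], X * aeval P q = aeval P q * X := by
      intro q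
      have h1 : Commute X P := hX
      have h2 : Commute X (aeval P q) := by
        induction q using Polynomial.induction_on' with
        | add a b ha hb => rw [map_add]; exact ha.add_right hb
        | monomial n c =>
          rw [aeval_monomial]
          exact (show Commute X (algebraMap ℚ (Module.End ℚ A.H1) c) from
            (Algebra.commutes c X).symm).mul_right (h1.pow_right n)
      exact h2
    have hXf : X = aeval P (f : ℚ[X]) := by
      refine LinearMap.ext fun u => ?_
      obtain ⟨q, rfl⟩ := hTs u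
      rw [hTa, ← Module.End.mul_apply, hcomm, Module.End.mul_apply, ← hf,
        ← Module.End.mul_apply, ← Module.End.mul_apply, ← map_mul, ← map_mul]
      exact congrArg (fun r => aeval P r v) (mul_comm _ _)
    rw [hXf]
    exact aeval_mem_adjoin_singleton ℚ P

/-- **Separation.** Two different embeddings are separated by the Lie algebra of the
de Rham-Betti group. -/
theorem separate {P : Module.End ℚ A.H1} (hP : P ∈ A.EA) (hPs : IsSkew A.om P)
    (hEA : ∀ Q ∈ A.EA, Q ∈ Algebra.adjoin ℚ {P})
    (hsimple : ∀ Q ∈ A.EA, Q ≠ 0 → Function.Injective Q)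
    (hdeg : (minpoly ℚ P).natDegree = 2 * g) {s s' : ℂ} (hs : aeval s (minpoly ℚ P) = 0)
    (hs' : aeval s' (minpoly ℚ P) = 0) (hne : s ≠ s') :
    ∃ f : ℚ[X], f.comp (-X) = -f ∧ aeval P f ∈ A.LA ∧ aeval s f ≠ aeval s' f := by
  by_contra hcon
  push Not at hcon
  have hcomm : ∀ Q ∈ A.EA, P * Q = Q * P := by
    intro Q hQ
    have h2 := hEA Q hQ
    rw [Algebra.adjoin_singleton_eq_range_aeval] at h2
    obtain ⟨p, rfl⟩ := h2
    have h3 : Commute P (aeval P p) := by
      induction p using Polynomial.induction_on' with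
      | add a b ha hb =>
        rw [map_add]
        have h4 := ha (A.aeval_mem hP a)
        have h5 := hb (A.aeval_mem hP b)
        exact h4.add_right h5
      | monomial n c =>
        rw [aeval_monomial]
        exact (show Commute P (algebraMap ℚ (Module.End ℚ A.H1) c) from
          (Algebra.commutes c P).symm).mul_right ((Commute.refl P).pow_right n)
    exact h3
  have h1 : P ∈ Algebra.adjoin ℚ (A.LA : Set (Module.End ℚ A.H1)) :=
    mem_adjoin_of_comm2 A.semi_LA fun Q hQ => hcomm Q hQ
  have h2 : ∀ Y ∈ Algebra.adjoin ℚ (A.LA : Set (Module.End ℚ A.H1)),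
      ∃ q : ℚ[X], aeval P q = Y ∧ aeval s q = aeval s' q := by
    intro Y hY
    refine Algebra.adjoin_induction (p := fun Y _ => ∃ q : ℚ[X], aeval P q = Y ∧
      aeval s q = aeval s' q) ?_ ?_ ?_ ?_ hY
    · intro X hX
      have h3 : X ∈ Algebra.adjoin ℚ {P} := adjoin_of_comm A hP hsimple hdeg (hP X hX)
      obtain ⟨f, hf, hfX⟩ := exists_odd A hPs h3 (A.LA_skew hX)
      exact ⟨f, hfX, hcon f hf (by rw [hfX]; exact hX)⟩
    · intro c
      exact ⟨C c, by rw [aeval_C], by rw [aeval_C, aeval_C]⟩
    · rintro a b _ _ ⟨q, hq, hq'⟩ ⟨r, hr, hr'⟩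
      exact ⟨q + r, by rw [map_add, hq, hr], by rw [map_add, map_add, hq', hr']⟩
    · rintro a b _ _ ⟨q, hq, hq'⟩ ⟨r, hr, hr'⟩
      exact ⟨q * r, by rw [map_mul, hq, hr], by rw [map_mul, map_mul, hq', hr']⟩
  obtain ⟨q, hq, hq'⟩ := h2 P h1
  have h3 : aeval P (q - X) = 0 := by rw [map_sub, hq, aeval_X, sub_self]
  obtain ⟨c, hc⟩ := minpoly.dvd ℚ P h3
  have h4 : ∀ z : ℂ, aeval z (minpoly ℚ P) = 0 → aeval z q = z := by
    intro z hz
    have h5 : aeval z (q - X) = 0 := by rw [hc, map_mul, hz, zero_mul]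
    rw [map_sub, aeval_X, sub_eq_zero] at h5
    exact h5
  apply hne
  rw [← h4 s hs, ← h4 s' hs', hq']

/-- **The annihilation by the centre from the triviality of the short relations.** -/
theorem kills_rel {P : Module.End ℚ A.H1} (hP : P ∈ A.EA) (hPs : IsSkew A.om P)
    (hEA : ∀ Q ∈ A.EA, Q ∈ Algebra.adjoin ℚ {P}) {κ : Type} [Fintype κ] [DecidableEq κ]
    (hrel : ∀ x : κ → ℂ, (∀ k, aeval (x k) (minpoly ℚ P) = 0) →
      (∀ f : ℚ[X], f.comp (-X) = -f → aeval P f ∈ A.LA → ∑ k, aeval (x k) f = 0) →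
      ∀ h' : ℂ → ℂ, (∀ z, h' (-z) = -h' z) → ∑ k, h' (x k) = 0)
    {Z : Module.End ℚ A.H1} (hZ : Z ∈ A.EA) (hZs : IsSkew A.om Z)
    {φ : MultilinearMap ℚ (fun _ : κ => A.H1) ℚ} (hφ : ∀ X ∈ A.LA, Kills X φ) : Kills Z φ := by
  classical
  obtain ⟨f', hf', hfZ⟩ := exists_odd A hPs (hEA _ hZ) hZs
  have hcomm : ∀ Q ∈ A.EA, ∀ Q' ∈ A.EA, Q * Q' = Q' * Q := by
    intro Q hQ Q' hQ'
    have h1 := hEA Q hQ
    have h2 := hEA Q' hQ'
    rw [Algebra.adjoin_singleton_eq_range_aeval] at h1 h2
    obtain ⟨p, rfl⟩ := h1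
    obtain ⟨p', rfl⟩ := h2
    change aeval P p * aeval P p' = aeval P p' * aeval P p
    exact ((map_mul (aeval P) p p').symm.trans (congrArg (aeval P) (mul_comm p p'))).trans
      (map_mul (aeval P) p' p)
  have hPZ : P ∈ A.ZA := ⟨hP, hPs, fun Q hQ => hcomm P hP Q hQ⟩
  obtain ⟨n, b, χ, hb⟩ := A.exists_basis
  have hbf : ∀ (p : ℚ[X]) i, (aeval P p).baseChange ℂ (b i) =
      aeval (χ i ⟨P, hPZ⟩) p • b i := by
    intro p i
    rw [← aeval_baseChange]
    exact AbVar.aeval_eigen (hb i ⟨P, hPZ⟩) p
  let β := Module.finBasis ℚ A.H1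
  have hcmp : ∀ (lam : ℂ →ₗ[ℚ] ℚ) (Y : Module.End ℚ A.H1),
      Pool.Agent.W516.DR.cmpE lam (Y.baseChange ℂ) = lam 1 • Y := by
    intro lam Y
    refine LinearMap.ext fun w => ?_
    rw [Pool.Agent.W516.DR.cmpE_apply, LinearMap.baseChange_tmul, Pool.Agent.W516.DR.cmp_tmul,
      LinearMap.smul_apply]
  have h1 : ∀ X0 ∈ A.LA, Kills (X0.baseChange ℂ) (bcm (Ω := ℂ) β φ) := fun X0 hX0 =>
    (kills_bcm_iff β φ _).2 fun lam => by
      rw [hcmp]
      exact hφ _ (A.LA.smul_mem _ hX0)
  have h2 : Kills (Z.baseChange ℂ) (bcm (Ω := ℂ) β φ) := by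
    refine kills_of_basis b _ _ fun I => ?_
    have h3 : ∀ p : ℚ[X], ∑ k, bcm (Ω := ℂ) β φ (update (fun l => b (I l)) k
        ((aeval P p).baseChange ℂ (b (I k)))) =
        (∑ k, aeval (χ (I k) ⟨P, hPZ⟩) p) * bcm (Ω := ℂ) β φ (fun l => b (I l)) := by
      intro p
      rw [Finset.sum_mul]
      refine Finset.sum_congr rfl fun k _ => ?_
      rw [hbf, MultilinearMap.map_update_smul, smul_eq_mul]
      congr 2
      exact update_eq_self k (fun l => b (I l))
    rw [← hfZ, h3 f']
    by_cases h0 : bcm (Ω := ℂ) β φ (fun l => b (I l)) = 0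
    · rw [h0, mul_zero]
    · have h6 := hrel (fun k => χ (I k) ⟨P, hPZ⟩) (fun k => by
        have h7 := hbf (minpoly ℚ P) (I k)
        rw [minpoly.aeval, LinearMap.baseChange_zero, LinearMap.zero_apply] at h7
        exact (smul_eq_zero.1 h7.symm).resolve_right (b.ne_zero _)) (fun f hf hfL => by
        have h4 := h1 _ hfL (fun l => b (I l))
        rw [h3 f] at h4
        exact (mul_eq_zero.1 h4).resolve_right h0) (fun z => aeval z f')
        (fun z => by
          have h7 := congrArg (aeval z) hf'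
          rw [aeval_comp, map_neg, aeval_X, map_neg] at h7
          exact h7)
      rw [h6, zero_mul]
  obtain ⟨lam, hlam⟩ : ∃ lam : ℂ →ₗ[ℚ] ℚ, lam 1 = 1 := by
    obtain ⟨G, hG⟩ := exists_lin (F := ℚ) (v := fun _ : Unit => (1 : ℂ)) (by
      rw [linearIndependent_unique_iff]
      exact one_ne_zero) (fun _ => (1 : ℚ))
    exact ⟨G, hG ()⟩
  have h3 := (kills_bcm_iff β φ _).1 h2 lam
  rwa [hcmp, hlam, one_smul] at h3

end Pool.Agent.W5h86.CC
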