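import Mathlib

/-! Short integer relations between the terms of a cyclic sequence of period `l ^ (a + 1)`:
helper lemma for MP_bf54cf_ag. -/

namespace Pool.Agent.W5h86.CC

open Polynomial Finset

/-- The shift of sequences. -/
noncomputable def shiftL : (ℕ → ℂ) →ₗ[ℚ] (ℕ → ℂ) where
  toFun f := fun j => f (j + 1)
  map_add' _ _ := rfl
  map_smul' _ _ := rfl

lemma shiftL_pow (n : ℕ) (f : ℕ → ℂ) (j : ℕ) : (shiftL ^ n) f j = f (j + n) := by
  induction n generalizing f j with
  | zero => simp
  | succ n ih =>
    rw [pow_succ, Module.End.mul_apply, ih]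
    show f (j + n + 1) = f (j + (n + 1))
    rw [add_assoc]

lemma sum_blocks (f : ℕ → ℤ) (m k : ℕ) :
    ∑ x ∈ range (m * k), f x = ∑ i ∈ range k, ∑ j ∈ range m, f (j + i * m) := by
  induction k with
  | zero => simp
  | succ k ih =>
    rw [Nat.mul_succ, Finset.sum_range_add, ih, Finset.sum_range_succ]
    congr 1
    refine Finset.sum_congr rfl fun x _ => ?_
    congr 1
    ring

theorem no_short {l a : ℕ} (hl : l.Prime) (hodd : l ≠ 2) (z : ℕ → ℂ) (σ : ℂ →+* ℂ)
    (hz : ∀ j, σ (z j) = z (j + 1)) (hper : ∀ j, z (j + l ^ (a + 1)) = z j)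
    (hne : z (l ^ a) ≠ z 0) (w : ℕ → ℤ)
    (hw : ∑ j ∈ Finset.range (l ^ (a + 1)), (w j : ℂ) * z j = 0)
    (heven : Even (∑ j ∈ Finset.range (l ^ (a + 1)), |w j|))
    (hlt : ∑ j ∈ Finset.range (l ^ (a + 1)), |w j| < 2 * l) :
    ∀ j < l ^ (a + 1), w j = 0 := by
  have := Fact.mk hl
  have hm0 : 0 < l ^ a := pow_pos hl.pos a
  set e := l ^ (a + 1) with he
  have he0 : 0 < e := pow_pos hl.pos _
  have heq : e = l ^ a * l := by rw [he, pow_succ]
  -- the polynomial of the relation
  set W : ℚ[X] := ∑ j ∈ range e, C (w j : ℚ) * X ^ j with hW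
  have hcoef : ∀ j, j < e → W.coeff j = (w j : ℚ) := by
    intro j hj
    rw [hW, finsetSum_coeff]
    simp only [coeff_C_mul, coeff_X_pow]
    rw [Finset.sum_eq_single j]
    · simp
    · intro b _ hb
      rw [if_neg (Ne.symm hb), mul_zero]
    · intro h
      exact absurd (Finset.mem_range.mpr hj) h
  have hcoef0 : ∀ j, e ≤ j → W.coeff j = 0 := by
    intro j hj
    rw [hW, finsetSum_coeff]
    simp only [coeff_C_mul, coeff_X_pow]
    refine Finset.sum_eq_zero fun b hb => ?_
    have := Finset.mem_range.mp hb
    rw [if_neg (by omega), mul_zero]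
  have hdegW : W.natDegree < e := by
    by_contra hcon
    have h1 : W.leadingCoeff = 0 := hcoef0 _ (not_lt.mp hcon)
    rw [leadingCoeff_eq_zero] at h1
    rw [h1, natDegree_zero] at hcon
    exact hcon he0
  -- all shifts of the relation
  have hrel : ∀ i, ∑ j ∈ range e, (w j : ℂ) * z (i + j) = 0 := by
    intro i
    induction i with
    | zero => simpa using hw
    | succ i ih =>
      have := congrArg σ ih
      rw [map_sum, map_zero] at this
      rw [← this]
      refine Finset.sum_congr rfl fun j _ => ?_
      rw [map_mul, map_intCast, hz]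
      congr 2
      ring
  have hWz : aeval shiftL W z = 0 := by
    funext i
    rw [hW, map_sum, LinearMap.sum_apply, Finset.sum_apply]
    rw [Pi.zero_apply, ← hrel i]
    refine Finset.sum_congr rfl fun j _ => ?_
    rw [map_mul, aeval_C, map_pow, aeval_X, Module.End.mul_apply,
      Module.algebraMap_end_apply, Pi.smul_apply, shiftL_pow]
    rw [Algebra.smul_def]
    simp
  have hXe : aeval shiftL ((X : ℚ[X]) ^ e - 1) z = 0 := by
    funext i
    rw [map_sub, map_pow, aeval_X, map_one, LinearMap.sub_apply, Pi.sub_apply, shiftL_pow,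
      Module.End.one_apply, hper, sub_self, Pi.zero_apply]
  have hPhi : cyclotomic e ℚ * (X ^ (l ^ a) - 1) = X ^ e - 1 := by
    have := Polynomial.cyclotomic_prime_pow_mul_X_pow_sub_one ℚ l a
    rw [he]
    exact this
  have hdvd : cyclotomic e ℚ ∣ W := by
    by_contra hnd
    have hcop : IsCoprime (cyclotomic e ℚ) W :=
      ((Polynomial.cyclotomic.irreducible_rat he0).coprime_iff_not_dvd).mpr hnd
    obtain ⟨u, v, huv⟩ := hcop
    have hz1 : aeval shiftL ((X : ℚ[X]) ^ (l ^ a) - 1) z = 0 := by
      have h1 : (X : ℚ[X]) ^ (l ^ a) - 1 = u * (X ^ e - 1) + (X ^ (l ^ a) - 1) * v * W := by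
        rw [← hPhi]
        linear_combination (-((X : ℚ[X]) ^ (l ^ a) - 1)) * huv
      rw [h1, map_add, map_mul, map_mul, LinearMap.add_apply, Module.End.mul_apply,
        Module.End.mul_apply, hXe, hWz, map_zero, map_zero, add_zero]
    have h2 := congrFun hz1 0
    rw [map_sub, map_pow, aeval_X, map_one, LinearMap.sub_apply, Pi.sub_apply, shiftL_pow,
      Module.End.one_apply, Pi.zero_apply, zero_add, sub_eq_zero] at h2
    exact hne h2
  obtain ⟨q, hq⟩ := hdvd
  -- the quotient has small degree
  have hdegq : ∀ k, l ^ a ≤ k → q.coeff k = 0 := by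
    intro k hk
    by_cases hq0 : q = 0
    · rw [hq0, coeff_zero]
    · apply coeff_eq_zero_of_natDegree_lt
      have h1 : W.natDegree = (cyclotomic e ℚ).natDegree + q.natDegree := by
        rw [hq, natDegree_mul (cyclotomic_ne_zero _ _) hq0]
      have h2 : (cyclotomic e ℚ).natDegree + l ^ a = e := by
        have h3 : (cyclotomic e ℚ * (X ^ (l ^ a) - 1)).natDegree
            = (cyclotomic e ℚ).natDegree + l ^ a := by
          rw [natDegree_mul (cyclotomic_ne_zero _ _)]
          · congr 1
            have := Polynomial.natDegree_X_pow_sub_C (R := ℚ) (n := l ^ a) (r := 1)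
            rwa [C_1] at this
          · intro h0
            have := Polynomial.natDegree_X_pow_sub_C (R := ℚ) (n := l ^ a) (r := 1)
            rw [C_1, h0, natDegree_zero] at this
            omega
        rw [← h3, hPhi]
        have := Polynomial.natDegree_X_pow_sub_C (R := ℚ) (n := e) (r := 1)
        rwa [C_1] at this
      omega
  have hcyc : cyclotomic e ℚ = ∑ i ∈ range l, ((X : ℚ[X]) ^ (l ^ a)) ^ i := by
    rw [he]
    exact Polynomial.cyclotomic_prime_pow_eq_geom_sum hl
  have hblock : ∀ i < l, ∀ j < l ^ a, w (j + i * l ^ a) = w j := by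
    have key : ∀ i < l, ∀ j < l ^ a, (w (j + i * l ^ a) : ℚ) = q.coeff j := by
      intro i hi j hj
      have hlt' : j + i * l ^ a < e := by
        rw [heq]
        have : (i + 1) * l ^ a ≤ l * l ^ a := Nat.mul_le_mul_right _ hi
        rw [mul_comm (l ^ a) l]
        linarith [this]
      rw [← hcoef _ hlt', hq, hcyc, Finset.sum_mul, finsetSum_coeff, Finset.sum_eq_single i]
      · rw [← pow_mul, mul_comm (l ^ a) i, coeff_X_pow_mul]
      · intro b _ hb
        rw [← pow_mul, coeff_X_pow_mul']
        split_ifs with hle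
        · apply hdegq
          have hbi : b < i := by
            rcases Nat.lt_or_ge b i with h | h
            · exact h
            · exfalso
              have hbi : i + 1 ≤ b := by omega
              have : (i + 1) * l ^ a ≤ b * l ^ a := Nat.mul_le_mul_right _ hbi
              rw [mul_comm (l ^ a) b] at hle
              nlinarith
          have : (b + 1) * l ^ a ≤ i * l ^ a := Nat.mul_le_mul_right _ hbi
          rw [mul_comm (l ^ a) b]
          rw [add_mul, one_mul] at this
          omega
        · rfl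
      · intro h
        exact absurd (Finset.mem_range.mpr hi) h
    intro i hi j hj
    have h1 := key i hi j hj
    have h2 := key 0 hl.pos j hj
    rw [Nat.zero_mul, add_zero] at h2
    exact_mod_cast h1.trans h2.symm
  have hsum : ∑ j ∈ range e, |w j| = l * ∑ j ∈ range (l ^ a), |w j| := by
    rw [heq, sum_blocks]
    rw [Finset.sum_congr rfl (g := fun _ => ∑ j ∈ range (l ^ a), |w j|)]
    · rw [Finset.sum_const, Finset.card_range, nsmul_eq_mul]
    · intro i hi
      refine Finset.sum_congr rfl fun j hj => ?_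
      rw [hblock i (Finset.mem_range.mp hi) j (Finset.mem_range.mp hj)]
  set T := ∑ j ∈ range (l ^ a), |w j| with hT
  have hT0 : 0 ≤ T := Finset.sum_nonneg fun j _ => abs_nonneg _
  have hTlt : T < 2 := by
    rw [hsum] at hlt
    have hlpos : (0 : ℤ) < l := by exact_mod_cast hl.pos
    nlinarith
  have hTe : Even T := by
    rw [hsum, Int.even_mul] at heven
    rcases heven with h | h
    · exfalso
      have h' : Even l := by exact_mod_cast h
      exact hodd ((Nat.Prime.even_iff hl).mp h')
    · exact h
  have hTz : T = 0 := by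
    obtain ⟨r, hr⟩ := hTe
    omega
  have hz0 : ∀ j < l ^ a, w j = 0 := by
    intro j hj
    have := (Finset.sum_eq_zero_iff_of_nonneg (fun j _ => abs_nonneg (w j))).mp
      (hT.symm.trans hTz) j (Finset.mem_range.mpr hj)
    exact abs_eq_zero.mp this
  intro j hj
  have hj' : j = j % l ^ a + j / l ^ a * l ^ a := by
    have := Nat.mod_add_div j (l ^ a)
    rw [mul_comm] at this
    omega
  have hdiv : j / l ^ a < l := by
    apply Nat.div_lt_of_lt_mul
    rw [← heq]
    exact hj
  rw [hj', hblock _ hdiv _ (Nat.mod_lt _ hm0)]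
  exact hz0 _ (Nat.mod_lt _ hm0)

end Pool.Agent.W5h86.CC
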